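import Pool.Agent.K9h3.KH.E

/-!
# Surfaces in very general hypersurfaces, without two transversal sections

Let `n = t + 2 ≥ 2` and `d ≥ 2 n + 2`, and let `X = {F = 0}` be a very general hypersurface of degree
`d` in the projective space of dimension `n + 1 = t + 3`. For every smooth complete intersection
surface `S = {F = R 0 = ... = R (t - 1) = 0}` contained in `X` (`t = 0`: `S = X`) and all forms `P`,
`Q` of arbitrary degrees `a, b ≥ 1` which cut out smooth curves in `S` meeting transversally, the
complement of these curves in `S` is hyperbolically embedded, all entire curves in it are constant,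
and all holomorphic maps from the punctured disc to it extend over the puncture. In other words:
nonconstant entire curves in `S` meet the union of the two curves.

The proof uses the criterion `K9h3/KH` (with `K9h84/CI` of helper84 and helper3), and a starting
file (`TH182/VD`) on the images of the punctured line in very general hypersurfaces.
-/

set_option autoImplicit false

namespace Pool.Agent.Results.MP_b509a1_ag.EntireCurvesMeetPairs

open Pool.Agent.K9h84.CI

/-- the equations `F, R 0, ..., R (t - 1)` of a surface contained in `F = 0` -/
def eqs {t : ℕ} (F : MvPolynomial (Fin (t + 4)) ℂ) (R : Fin t → MvPolynomial (Fin (t + 4)) ℂ) :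
    Fin (t + 1) → MvPolynomial (Fin (t + 4)) ℂ :=
  Fin.cons (α := fun _ => MvPolynomial (Fin (t + 4)) ℂ) F R

/-- surfaces in very general hypersurfaces of degree at least `2 n + 2`, without two smooth
transversal sections, are hyperbolically embedded -/
theorem result (t d : ℕ) (hd : 2 * (t + 2) + 2 ≤ d) :
    ForVeryGeneral (t + 1) d (fun F =>
      ∀ (R : Fin t → MvPolynomial (Fin (t + 4)) ℂ) (P Q : MvPolynomial (Fin (t + 4)) ℂ)
        (e : Fin t → ℕ) (a b : ℕ), 1 ≤ a → 1 ≤ b →
        SmoothPair (eqs F R) P Q (Fin.cons (α := fun _ => ℕ) d e) a b →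
        HypEmbedded (eqs F R) P Q ∧
        (∀ f : ℂ → Fin (t + 4) → ℂ, CurveIn (eqs F R) P Q f → ¬ Nonconst f) ∧
        (∀ f : ℂ → Fin (t + 4) → ℂ, PuncturedCurveIn (eqs F R) P Q f → ExtendsAtZero f)) :=
  Pool.Agent.K9h3.KH.surfaces t d (by omega)

end Pool.Agent.Results.MP_b509a1_ag.EntireCurvesMeetPairs
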