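import Mathlib
import Pool.Agent.K9h33.SMT.Drop

/-!
# An inequality for all entire curves in general hypersurfaces

Let `n ≥ 0` and `d ≥ 2 n + 2`. There are a number `C` and a nonempty Zariski open set of hypersurfaces
of degree `d` in the projective space of dimension `n + 1` such that **every** nonconstant entire curve
`f` in each of these hypersurfaces satisfies

`T_f(r) ≤ C N₁(W, r)`

for all `r ≥ 1` outside a set of finite measure. Here `W` is the Wronskian determinant of a basis of the
linear span of the homogeneous coordinates `f_0, …, f_{n+1}`, `T_f` is the characteristic function and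
`N₁(W, r)` is the counting function of the zeros of `W` in which every zero is counted once. So Q1
holds for all entire curves which violate this inequality, for instance for all entire curves such that
`W` has no zeros.

This is proved in a more general form: for all strata of arrangements of general hypersurfaces (such as
general hypersurfaces, their intersections and their complements), and for entire curves `f = P(G)`
which are given as the images of entire curves `G` in a projective space of any dimension under forms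
`P` of any degree, where `W` is the Wronskian of `G`.
-/

set_option autoImplicit false

namespace Pool.Agent.Results.MP_b509a1_ag.WronskianInequality

open MeasureTheory MvPolynomial

/-- The characteristic function of the curve with the homogeneous coordinates `f`: the mean of the
logarithm of the maximum norm over the circle of the radius `r`. -/
noncomputable def T {N : ℕ} (f : Fin (N + 1) → ℂ → ℂ) (r : ℝ) : ℝ :=
  Real.circleAverage (fun z => Real.log ‖fun j => f j z‖) 0 r

/-- The counting function of the zeros of `h`; every zero is counted once. -/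
noncomputable def N₁ (h : ℂ → ℂ) (r : ℝ) : ℝ :=
  ∑ᶠ z ∈ {z : ℂ | h z = 0 ∧ ‖z‖ ≤ r}, if z = 0 then Real.log r else Real.log (r / ‖z‖)

/-- The Wronskian determinant. -/
noncomputable def W {n : ℕ} (g : Fin n → ℂ → ℂ) (z : ℂ) : ℂ :=
  Matrix.det (Matrix.of fun i j : Fin n => iteratedDeriv i (g j) z)

/-- Homogeneous coordinates `f` of a nonconstant entire curve: the `f_j` are entire functions without
common zeros, and there are two values of `f` which are not proportional. -/
structure Entire {N : ℕ} (f : Fin (N + 1) → ℂ → ℂ) : Prop where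
  hol : ∀ j, Differentiable ℂ (f j)
  ne : ∀ z, ∃ j, f j z ≠ 0
  nc : ∃ z w j k, f j z * f k w ≠ f k z * f j w

/-- `g` is a basis of the linear span of the functions `G`. -/
def Basis {M n : ℕ} (G : Fin (M + 1) → ℂ → ℂ) (g : Fin n → ℂ → ℂ) : Prop :=
  LinearIndependent ℂ g ∧ Submodule.span ℂ (Set.range g) = Submodule.span ℂ (Set.range G)

/-- The indices of the coefficients of `q` forms of the degrees `d i` in `N + 1` variables. -/
abbrev Idx (N : ℕ) {q : ℕ} (d : Fin q → ℕ) : Type :=
  Σ i : Fin q, {α : Fin (N + 1) →₀ ℕ // α.degree = d i}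

/-- The curve is contained in the hypersurfaces `F_i = 0` with `i ∈ Z` and is not contained in the
hypersurfaces `F_i = 0` with `i ∉ Z`. -/
def InStratum {N q : ℕ} (F : Fin q → MvPolynomial (Fin (N + 1)) ℂ) (Z : Finset (Fin q))
    (f : Fin (N + 1) → ℂ → ℂ) : Prop :=
  (∀ i ∈ Z, ∀ z, eval (fun j => f j z) (F i) = 0) ∧
    ∀ i ∉ Z, ∃ z, eval (fun j => f j z) (F i) ≠ 0

/-- The product of the `F_i(f)` with `i ∉ Z`; this is `1` if there are no such `i`. -/
noncomputable def Off {N q : ℕ} (F : Fin q → MvPolynomial (Fin (N + 1)) ℂ) (Z : Finset (Fin q))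
    (f : Fin (N + 1) → ℂ → ℂ) (z : ℂ) : ℂ :=
  ∏ i ∈ Finset.univ \ Z, eval (fun j => f j z) (F i)

/-- The curve `P(G)`. -/
noncomputable def image {N M : ℕ} (P : Fin (N + 1) → MvPolynomial (Fin (M + 1)) ℂ)
    (G : Fin (M + 1) → ℂ → ℂ) (j : Fin (N + 1)) (z : ℂ) : ℂ :=
  eval (fun k => G k z) (P j)

theorem N₁_eq {h : ℂ → ℂ} {r : ℝ} (hr : 1 ≤ r) (hfin : {z : ℂ | h z = 0 ∧ ‖z‖ ≤ r}.Finite) :
    N₁ h r = N131.SR.Nb h r := by
  classical
  have hF : ∀ z, z ∈ hfin.toFinset ↔ h z = 0 ∧ ‖z‖ ≤ r := fun z => by
    rw [Set.Finite.mem_toFinset]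
    rfl
  rw [N131.SR.Nb_eq r hfin.toFinset hF]
  unfold N₁
  rw [finsum_mem_eq_finite_toFinset_sum _ hfin]
  have h1 : ∀ z ∈ hfin.toFinset, (if z = 0 then Real.log r else Real.log (r / ‖z‖)) =
      Real.log (r * ‖z‖⁻¹) + if z = 0 then Real.log r else 0 := by
    intro z _
    by_cases h : z = 0
    · simp [h]
    · simp [h, div_eq_mul_inv]
  rw [Finset.sum_congr rfl h1, Finset.sum_add_distrib, Finset.sum_ite_eq']
  congr 1
  by_cases h0 : h 0 = 0
  · rw [if_pos ((hF 0).2 ⟨h0, by rw [norm_zero]; linarith⟩),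
      Set.indicator_of_mem (show (0 : ℂ) ∈ {z : ℂ | h z = 0} from h0)]
    simp
  · rw [if_neg fun h2 => h0 ((hF 0).1 h2).1,
      Set.indicator_of_notMem (show (0 : ℂ) ∉ {z : ℂ | h z = 0} from h0)]
    simp

section

variable {N M e q n : ℕ}

theorem wr_eq (c : N131.SU.Crv M N n e) {r : ℝ} (hr : 1 ≤ r) :
    N₁ (W c.g) r = N131.SR.Nb (N131.SR.Wr c.g) r := by
  obtain ⟨a, b, ha, hb, hgd, hW⟩ := c.D.data
  exact N₁_eq hr (N131.SR.zeros_finite (N131.SR.Wr_diff hgd) hW r)

theorem off_eq (c : N131.SU.Crv M N n e) {F : Fin q → MvPolynomial (Fin (N + 1)) ℂ}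
    {Z : Finset (Fin q)} (h : InStratum F Z c.f) {r : ℝ} (hr : 1 ≤ r) :
    N₁ (Off F Z c.f) r =
      N131.SR.Nb (fun z => eval (fun j => c.f j z) (∏ i ∈ Finset.univ \ Z, F i)) r := by
  have h1 : Off F Z c.f = fun z => eval (fun j => c.f j z) (∏ i ∈ Finset.univ \ Z, F i) := by
    funext z
    unfold Off
    rw [map_prod]
  rw [h1]
  exact N₁_eq hr (N131.SR.zeros_finite (N131.SR.form_diff (N131.SR.img_diff (P := c.P) c.D.hG) _)
    (K9h33.SMT.prod_ne fun i hi => h.2 i (Finset.mem_sdiff.1 hi).2) r)

end

/-- Let `d_i` (`i < q`) be degrees of hypersurfaces in the projective space of dimension `N`, let `Z` be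
a set of indices with `2 N + 1 ≤ ∑ d_i + #Z`, and let `M ≥ 0` and `e > 0`. There are a number `C` and a
nonzero polynomial `Φ` in the coefficients of `q` forms of the degrees `d_i` such that for all forms
`F_i` of the degrees `d_i` at which `Φ` does not vanish the following holds: all nonconstant entire
curves `f = P(G)`, where `G_0, …, G_M` are entire functions and the `P_j` are forms of degree `e`, which
are contained in `F_i = 0` exactly for `i ∈ Z` satisfy

`T_f(r) ≤ C (N₁(W, r) + N₁(∏ F_i(f), r) + log⁺ (T_G(r) / T_f(r)))`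

for all `r ≥ 1` outside a set of finite measure, where `W` is the Wronskian of a basis `g` of the linear
span of `G_0, …, G_M` and the product is over all `i ∉ Z`.

In Q1 we have `N = n + 1`, `q = 1` and `Z = {0}`, and the condition on the degree is `d ≥ 2 n + 2`. For
`G = f` the inequality is `T_f(r) ≤ C N₁(W, r)`, where `W` is the Wronskian of a basis of the linear
span of the `f_j`. -/
theorem result (N q M e : ℕ) (d : Fin q → ℕ) (Z : Finset (Fin q))
    (hZ : 2 * N + 1 ≤ ∑ i, d i + Z.card) (he : 0 < e) :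
    ∃ (Φ : MvPolynomial (Idx N d) ℂ) (C : ℝ), Φ ≠ 0 ∧
      ∀ F : Fin q → MvPolynomial (Fin (N + 1)) ℂ, (∀ i, (F i).IsHomogeneous (d i)) →
        eval (fun x => coeff x.2.1 (F x.1)) Φ ≠ 0 →
        ∀ (G : Fin (M + 1) → ℂ → ℂ) (P : Fin (N + 1) → MvPolynomial (Fin (M + 1)) ℂ),
          (∀ k, Differentiable ℂ (G k)) → (∀ j, (P j).IsHomogeneous e) →
          Entire (image P G) → InStratum F Z (image P G) →
          ∀ (n : ℕ) (g : Fin n → ℂ → ℂ), Basis G g →
            ∃ E : Set ℝ, volume E < ⊤ ∧ ∀ r, 1 ≤ r → r ∉ E →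
              T (image P G) r ≤ C * (N₁ (W g) r + N₁ (Off F Z (image P G)) r +
                Real.posLog (T G r / T (image P G) r)) := by
  obtain ⟨Φ, hΦ, C, hC⟩ := K9h33.SMT.fam_drop (N := N) d Z hZ M e
  refine ⟨Φ, C, hΦ, fun F hF hFΦ G P hG hP hE hS n g hg => ?_⟩
  let c : N131.SU.Crv M N n e := ⟨G, P, g, ⟨hG, he, hP, hE.ne, hg.1, hg.2⟩⟩
  obtain ⟨E, hE', hb⟩ := hC F hF hFΦ n c hS.1 hS.2 hE.nc
  refine ⟨E, hE', fun r hr hrE => ?_⟩
  have h3 := hb r hr hrE
  rw [← wr_eq c hr, ← off_eq c hS hr] at h3
  exact h3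

end Pool.Agent.Results.MP_b509a1_ag.WronskianInequality
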